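import Pool.Agent.H30.GMC.StT

open AlgebraicGeometry CategoryTheory FCB MvPolynomial

namespace GMC

/-- Irreducible components of a summand of a disjoint union. -/
private theorem sigC {ι : Type*} {T : ι → Type*} [∀ i, TopologicalSpace (T i)] (e : ι)
    (C : Set (T e)) (hC : C ∈ irreducibleComponents (T e)) :
    ((Sigma.mk e) '' C) ∈ irreducibleComponents (Sigma T) := by
  have hemb : Topology.IsOpenEmbedding (Sigma.mk e : T e → Sigma T) :=
    Topology.IsOpenEmbedding.sigmaMk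
  refine ⟨hC.1.image _ hemb.continuous.continuousOn, ?_⟩
  intro D hD hle
  have hle' : Sigma.mk e '' C ⊆ D := hle
  obtain ⟨c, hc⟩ := hC.1.nonempty
  -- D lies in the clopen range
  have hrange : D ⊆ Set.range (Sigma.mk e : T e → Sigma T) := by
    have hclop : IsClopen (Set.range (Sigma.mk e : T e → Sigma T)) :=
      ⟨Topology.IsClosedEmbedding.sigmaMk.isClosed_range, hemb.isOpen_range⟩
    exact (hD.2.isPreconnected).subset_isClopen hclop
      ⟨Sigma.mk e c, hle' ⟨c, hc, rfl⟩, ⟨c, rfl⟩⟩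
  have hpre : IsIrreducible (Sigma.mk e ⁻¹' D) :=
    ⟨⟨c, hle' ⟨c, hc, rfl⟩⟩, hD.2.preimage hemb⟩
  have hsub : C ⊆ Sigma.mk e ⁻¹' D := fun x hx => hle' ⟨x, hx, rfl⟩
  have h2 : Sigma.mk e ⁻¹' D ⊆ C := hC.2 hpre hsub
  intro x hx
  obtain ⟨y, rfl⟩ := hrange hx
  exact ⟨y, h2 hx, rfl⟩

theorem sigc_thm : S_SIGC := fun V e C hC =>
  sigC (T := fun e : ℕ => RatMap V (e + 1)) e C hC

end GMC
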