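import Pool.Agent.H30.GMC.StT

open AlgebraicGeometry CategoryTheory FCB MvPolynomial
open Pool.Agent.H22.GMC (Coord Maps Source stratum Idx form IsMap)

namespace GMC

namespace CCLS

/-- The coefficient vector of `x_0² = s^e`, `w = t^e`, all other coordinates `0`. -/
noncomputable def cf (e : ℕ) (p : Coord 2 × Fin (e + 1)) : ℂ :=
  match p.1 with
  | none => if p.2 = 0 then 1 else 0
  | some (i, j) => if i = 0 ∧ j = 0 ∧ p.2 = Fin.last e then 1 else 0

theorem form_none (e : ℕ) : form (n := 2) (cf e) none = 1 := by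
  unfold form
  rw [Finset.sum_eq_single (0 : Fin (e + 1))]
  · simp [cf]
  · intro b _ hb
    simp [cf, hb]
  · simp

theorem form_some (e : ℕ) (i j : Fin 3) : form (n := 2) (cf e) (some (i, j)) =
    if i = 0 ∧ j = 0 then Polynomial.X ^ e else 0 := by
  unfold form
  rw [Finset.sum_eq_single (Fin.last e)]
  · by_cases h : i = 0 ∧ j = 0
    · obtain ⟨rfl, rfl⟩ := h
      simp [cf]
    · rw [if_neg h]
      have : cf e (some (i, j), Fin.last e) = 0 := by
        simp only [cf]
        rw [if_neg]
        rintro ⟨h1, h2, -⟩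
        exact h ⟨h1, h2⟩
      rw [this]; simp
  · intro b _ hb
    have : cf e (some (i, j), b) = 0 := by
      simp only [cf]
      rw [if_neg]
      rintro ⟨-, -, h3⟩
      exact hb h3
    rw [this]; simp
  · simp

theorem isMap_cf (e : ℕ) : IsMap (n := 2) (cf e) := by
  refine ⟨?_, ?_, ?_, ?_⟩
  · intro i j
    rw [form_some, form_some]
    simp only [and_comm]
  · intro i j i' j'
    rw [form_some, form_some, form_some, form_some]
    by_cases h1 : i = 0 <;> by_cases h2 : j = 0 <;> by_cases h3 : i' = 0 <;>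
      by_cases h4 : j' = 0 <;> simp [h1, h2, h3, h4]
  · intro t
    refine ⟨none, ?_⟩
    rw [form_none]; simp
  · refine ⟨some (0, 0), ?_⟩
    simp [cf]

end CCLS

theorem ccls_thm (h1 : S_P1C) (h2 : S_RATX) (h3 : S_HCLS) : S_CCLS := by
  intro M D dg hD hdg e _
  obtain ⟨g, hg1, hg2⟩ := (h2 M e (fun p => CCLS.cf e (eI p.1, p.2))).mpr (by
    have := CCLS.isMap_cf e
    simpa using this)
  exact AddSubgroup.subset_closure ⟨P1, g, h1, hg1, h3 M D dg hD hdg e _ g hg1 hg2⟩

end GMC
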